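import Mathlib

/-!
# A large convex set in a sumset

`U i = K (i² + (16 m² + 2 m) i) + i²` and `V j = K (-j² + 16 m² j)`; the sum `U i + V (J - i)` is
`g J i = K (16 m² J - J² + 2 (m + J) i) + i²`.  For fixed `J` the values `g J i` are almost an
arithmetic progression with difference `2 K (m + J)`, and from the progression of `J` one can pass to
the one of `J + 1` at a suitable place such that the differences remain increasing.
-/

namespace Run7.h185.CS

/-- The data: `q J` and the starting index `s (J + 1)` of the block `J + 1`. -/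
structure Data (m : ℤ) (q s : ℕ → ℤ) : Prop where
  zero : s 0 = 0
  eq : ∀ J : ℕ, (m + J) * q J = 8 * m ^ 2 - J - 1 + s (J + 1)
  nonneg : ∀ J : ℕ, 0 ≤ s J
  lt : ∀ J : ℕ, s (J + 1) < m + J

theorem exists_data (m : ℤ) (hm : 1 ≤ m) : ∃ q s : ℕ → ℤ, Data m q s := by
  let q : ℕ → ℤ := fun J => (8 * m ^ 2 + m - 2 + 0) / (m + J)
  let s : ℕ → ℤ := fun n => match n with
    | 0 => 0
    | J + 1 => (m + J) * q J - (8 * m ^ 2 - J - 1)
  have hpos : ∀ J : ℕ, (0 : ℤ) < m + J := fun J => by positivity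
  have key : ∀ J : ℕ, 0 ≤ s (J + 1) ∧ s (J + 1) < m + J := by
    intro J
    have h1 := Int.mul_ediv_add_emod (8 * m ^ 2 + m - 2 + 0) (m + J)
    have h2 := Int.emod_nonneg (8 * m ^ 2 + m - 2 + 0) (hpos J).ne'
    have h3 := Int.emod_lt_of_pos (8 * m ^ 2 + m - 2 + 0) (hpos J)
    have e : s (J + 1) = (m + J) * ((8 * m ^ 2 + m - 2 + 0) / (m + J)) - (8 * m ^ 2 - J - 1) := rfl
    rw [e]
    constructor
    · linarith
    · linarith
  refine ⟨q, s, rfl, fun J => ?_, fun J => ?_, fun J => (key J).2⟩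
  · change (m + J) * q J = 8 * m ^ 2 - J - 1 + ((m + J) * q J - (8 * m ^ 2 - J - 1))
    ring
  · cases J with
    | zero => exact le_refl _
    | succ J => exact (key J).1

/-- The values. -/
def g (m K : ℤ) (J i : ℤ) : ℤ := K * (16 * m ^ 2 * J - J ^ 2 + 2 * (m + J) * i) + i ^ 2

def U (m K : ℤ) (i : ℤ) : ℤ := K * (i ^ 2 + (16 * m ^ 2 + 2 * m) * i) + i ^ 2

def V (m K : ℤ) (j : ℤ) : ℤ := K * (-j ^ 2 + 16 * m ^ 2 * j)

theorem U_add_V (m K J i : ℤ) : U m K i + V m K (J - i) = g m K J i := by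
  unfold U V g; ring

section
variable {m K : ℤ} {q s : ℕ → ℤ}

/-- One step. -/
def step (q s : ℕ → ℤ) (x : ℕ × ℤ) : ℕ × ℤ :=
  if x.2 + 1 < s (x.1 + 1) + q x.1 then (x.1, x.2 + 1) else (x.1 + 1, s (x.1 + 1))

/-- Valid states. -/
def Valid (q s : ℕ → ℤ) (x : ℕ × ℤ) : Prop := s x.1 ≤ x.2 ∧ x.2 < s (x.1 + 1) + q x.1

theorem Data.q_le (D : Data m q s) (hm : 1 ≤ m) (J : ℕ) : q J ≤ 8 * m := by
  have h1 := D.eq J
  have h2 := D.lt J
  have h3 := D.nonneg (J + 1)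
  by_contra h
  push Not at h
  have hJ : (0 : ℤ) ≤ J := by positivity
  nlinarith

theorem Data.le_q (D : Data m q s) (hm : 1 ≤ m) {J : ℕ} (hJ : (J : ℤ) < m) : 4 * m ≤ q J := by
  have h1 := D.eq J
  have h3 := D.nonneg (J + 1)
  by_contra h
  push Not at h
  have hJ' : (0 : ℤ) ≤ J := by positivity
  have h4 : q J ≤ 4 * m - 1 := by omega
  nlinarith

theorem Data.s_le (D : Data m q s) (hm : 1 ≤ m) {J : ℕ} (hJ : (J : ℤ) ≤ m) : s J ≤ 2 * m := by
  cases J with
  | zero => rw [D.zero]; linarith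
  | succ J =>
    have := D.lt J
    push_cast at hJ
    linarith

theorem Data.valid_bounds (D : Data m q s) (hm : 1 ≤ m) {x : ℕ × ℤ} (hx : Valid q s x)
    (hJ : (x.1 : ℤ) < m) : 0 ≤ x.2 ∧ x.2 < 10 * m := by
  have h1 := D.nonneg x.1
  have h2 := D.q_le hm x.1
  have h3 := D.s_le hm (J := x.1 + 1) (by push_cast; linarith)
  obtain ⟨h4, h5⟩ := hx
  constructor <;> linarith

theorem Data.valid_step (D : Data m q s) (hm : 1 ≤ m) {x : ℕ × ℤ} (hx : Valid q s x)
    (hJ : ((step q s x).1 : ℤ) < m) : Valid q s (step q s x) := by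
  unfold step at hJ ⊢
  split_ifs at hJ ⊢ with h
  · exact ⟨by have := hx.1; simp only; linarith, h⟩
  · refine ⟨le_refl _, ?_⟩
    simp only at hJ ⊢
    have h1 := D.nonneg (x.1 + 1 + 1)
    have h2 := D.s_le hm (J := x.1 + 1) hJ.le
    have h3 := D.le_q hm (J := x.1 + 1) hJ
    linarith

/-- The gap after a state. -/
theorem gap (D : Data m q s) {x : ℕ × ℤ} (hx : Valid q s x) :
    (x.2 + 1 < s (x.1 + 1) + q x.1 ∧ step q s x = (x.1, x.2 + 1) ∧
      g m K (step q s x).1 (step q s x).2 - g m K x.1 x.2 = K * (2 * (m + x.1)) + (2 * x.2 + 1)) ∨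
    (step q s x = (x.1 + 1, s (x.1 + 1)) ∧
      g m K (step q s x).1 (step q s x).2 - g m K x.1 x.2 =
        K * (2 * (m + x.1) + 1) + (s (x.1 + 1) ^ 2 - x.2 ^ 2)) := by
  by_cases h : x.2 + 1 < s (x.1 + 1) + q x.1
  · left
    have e : step q s x = (x.1, x.2 + 1) := by unfold step; rw [if_pos h]
    refine ⟨h, e, ?_⟩
    rw [e]
    unfold g
    ring
  · right
    have e : step q s x = (x.1 + 1, s (x.1 + 1)) := by unfold step; rw [if_neg h]
    refine ⟨e, ?_⟩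
    rw [e]
    have h1 := hx.2
    have h2 : x.2 = s (x.1 + 1) + q x.1 - 1 := by omega
    have h3 := D.eq x.1
    have h4 : g m K ((x.1 + 1 : ℕ) : ℤ) (s (x.1 + 1)) - g m K x.1 x.2 =
        K * (16 * m ^ 2 - 2 * x.1 - 1 + 2 * (m + x.1 + 1) * s (x.1 + 1) -
          2 * (m + x.1) * x.2) + (s (x.1 + 1) ^ 2 - x.2 ^ 2) := by
      unfold g; push_cast; ring
    simp only
    rw [h4]
    have h5 : (16 * m ^ 2 - 2 * (x.1 : ℤ) - 1 + 2 * (m + x.1 + 1) * s (x.1 + 1) -
          2 * (m + x.1) * x.2) = 2 * (m + x.1) + 1 := by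
      rw [h2]
      linear_combination (-2) * h3
    rw [h5]

/-- The gaps are positive and increasing. -/
theorem gaps (D : Data m q s) (hm : 1 ≤ m) (hK : (10 * m + 2) ^ 2 ≤ K) {x : ℕ × ℤ}
    (hx : Valid q s x) (hJ : ((step q s x).1 : ℤ) < m) :
    0 < g m K (step q s x).1 (step q s x).2 - g m K x.1 x.2 ∧
    g m K (step q s x).1 (step q s x).2 - g m K x.1 x.2 <
      g m K (step q s (step q s x)).1 (step q s (step q s x)).2 -
        g m K (step q s x).1 (step q s x).2 := by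
  have hJx : (x.1 : ℤ) < m := by
    unfold step at hJ
    split_ifs at hJ
    · exact hJ
    · push_cast at hJ; linarith
  have hv := D.valid_step hm hx hJ
  have b1 := D.valid_bounds hm hx hJx
  have b2 := D.valid_bounds hm hv hJ
  have s1 := D.nonneg (x.1 + 1)
  have s2 := D.s_le hm (J := x.1 + 1) (by push_cast; linarith)
  have s3 := D.nonneg ((step q s x).1 + 1)
  have s4 := D.s_le hm (J := (step q s x).1 + 1) (by push_cast; linarith)
  have q1 : x.2 ^ 2 ≤ (10 * m) ^ 2 := pow_le_pow_left₀ b1.1 b1.2.le 2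
  have q2 : (step q s x).2 ^ 2 ≤ (10 * m) ^ 2 := pow_le_pow_left₀ b2.1 b2.2.le 2
  have q3 : (s (x.1 + 1)) ^ 2 ≤ (2 * m) ^ 2 := pow_le_pow_left₀ s1 s2 2
  have q4 : (s ((step q s x).1 + 1)) ^ 2 ≤ (2 * m) ^ 2 := pow_le_pow_left₀ s3 s4 2
  have p1 := sq_nonneg x.2
  have p2 := sq_nonneg (step q s x).2
  have p3 := sq_nonneg (s (x.1 + 1))
  have p4 := sq_nonneg (s ((step q s x).1 + 1))
  have hxJ : (0 : ℤ) ≤ x.1 := by positivity
  have hK0 : 0 < K := by nlinarith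
  have hKJ : 0 ≤ K * x.1 := by positivity
  have hKm : K ≤ K * m := by nlinarith
  have hmm : 0 ≤ m ^ 2 := sq_nonneg m
  rcases gap (K := K) D hx with ⟨h1, e1, g1⟩ | ⟨e1, g1⟩ <;>
    rcases gap (K := K) D hv with ⟨h2, e2, g2⟩ | ⟨e2, g2⟩ <;>
    rw [g1, g2] <;> rw [e1] at b2 q2 p2 q4 p4 ⊢ <;> simp only at b2 q2 p2 q4 p4 ⊢ <;>
    push_cast <;> constructor <;> nlinarith

end

end Run7.h185.CS
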