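import Pool.Agent.Run7.h185.CS.Core

namespace Run7.h185.CS

open Finset
open scoped Pointwise

section
variable {m K : ℤ} {q s : ℕ → ℤ}

/-- The states. -/
def state (q s : ℕ → ℤ) (k : ℕ) : ℕ × ℤ := (step q s)^[k] (0, 0)

theorem state_succ (q s : ℕ → ℤ) (k : ℕ) : state q s (k + 1) = step q s (state q s k) :=
  Function.iterate_succ_apply' _ _ _

theorem inv (D : Data m q s) (hm : 1 ≤ m) (k : ℕ) (hk : (k : ℤ) < 2 * m ^ 2) :
    Valid q s (state q s k) ∧ ((state q s k).1 : ℤ) < m ∧
      2 * m * (state q s k).1 + ((state q s k).2 - s (state q s k).1) ≤ k := by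
  induction k with
  | zero =>
    have h0 : state q s 0 = (0, 0) := rfl
    rw [h0]
    refine ⟨⟨?_, ?_⟩, ?_, ?_⟩
    · simp only; rw [D.zero]
    · have h1 := D.nonneg (0 + 1)
      have h3 := D.le_q hm (J := 0) (by push_cast; linarith)
      simp only
      linarith
    · push_cast; linarith
    · simp only; rw [D.zero]; push_cast; simp
  | succ k ih =>
    have hk' : (k : ℤ) < 2 * m ^ 2 := by push_cast at hk; linarith
    obtain ⟨hv, hJ, hle⟩ := ih hk'
    rw [state_succ]
    set x := state q s k with hx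
    have key : 2 * m * (step q s x).1 + ((step q s x).2 - s (step q s x).1) ≤ ((k + 1 : ℕ) : ℤ) := by
      unfold step
      split_ifs with h
      · simp only; push_cast; linarith
      · simp only
        have h1 := hv.2
        have h2 := hv.1
        have h3 := D.le_q hm hJ
        have h4 := D.nonneg (x.1 + 1)
        have h5 := D.s_le hm hJ.le
        push_cast
        nlinarith
    have h6 : 0 ≤ (step q s x).2 - s (step q s x).1 := by
      unfold step
      split_ifs with h
      · have := hv.1; simp only; linarith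
      · simp
    have hJ' : ((step q s x).1 : ℤ) < m := by
      by_contra hcon
      push Not at hcon
      have : (((k + 1 : ℕ)) : ℤ) < 2 * m ^ 2 := hk
      nlinarith
    exact ⟨D.valid_step hm hv hJ', hJ', key⟩

/-- The sequence. -/
def seq (m K : ℤ) (q s : ℕ → ℤ) (k : ℕ) : ℤ := g m K (state q s k).1 (state q s k).2

theorem seq_gaps (D : Data m q s) (hm : 1 ≤ m) (hK : (10 * m + 2) ^ 2 ≤ K) (k : ℕ)
    (hk : ((k + 1 : ℕ) : ℤ) < 2 * m ^ 2) :
    seq m K q s k < seq m K q s (k + 1) ∧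
    seq m K q s (k + 1) - seq m K q s k < seq m K q s (k + 2) - seq m K q s (k + 1) := by
  have hk' : (k : ℤ) < 2 * m ^ 2 := by push_cast at hk; linarith
  obtain ⟨hv, hJ, -⟩ := inv D hm k hk'
  obtain ⟨hv', hJ', -⟩ := inv D hm (k + 1) hk
  rw [state_succ] at hJ'
  have h := gaps (K := K) D hm hK hv hJ'
  unfold seq
  rw [state_succ q s (k + 1), state_succ q s k]
  exact ⟨by linarith [h.1], h.2⟩

theorem seq_mem (D : Data m q s) (hm : 1 ≤ m) (k : ℕ) (hk : (k : ℤ) < 2 * m ^ 2) :
    ∃ i ∈ Icc 0 (10 * m), ∃ j ∈ Icc (-(10 * m)) m, U m K i + V m K j = seq m K q s k := by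
  obtain ⟨hv, hJ, -⟩ := inv D hm k hk
  have hb := D.valid_bounds hm hv hJ
  refine ⟨(state q s k).2, Finset.mem_Icc.2 ⟨hb.1, hb.2.le⟩,
    (state q s k).1 - (state q s k).2, Finset.mem_Icc.2 ⟨?_, ?_⟩, U_add_V _ _ _ _⟩
  · have : (0 : ℤ) ≤ (state q s k).1 := by positivity
    linarith
  · linarith

end

/-- **Main construction**: `2 m²` numbers with increasing gaps in the sumset of a set of at most
`21 m + 2` integers. -/
theorem exists_seq (m : ℕ) (hm : 1 ≤ m) : ∃ (B : Finset ℤ) (a : ℕ → ℤ),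
    B.card ≤ 21 * m + 2 ∧ (∀ k, k < 2 * m ^ 2 → a k ∈ B + B) ∧
    (∀ k, k + 1 < 2 * m ^ 2 → a k < a (k + 1)) ∧
    ∀ k, k + 2 < 2 * m ^ 2 → a (k + 1) - a k < a (k + 2) - a (k + 1) := by
  have hm' : (1 : ℤ) ≤ m := by exact_mod_cast hm
  obtain ⟨q, s, D⟩ := exists_data (m : ℤ) hm'
  set K : ℤ := (10 * m + 2) ^ 2 with hKdef
  refine ⟨(Icc (0 : ℤ) (10 * m)).image (U m K) ∪ (Icc (-(10 * (m : ℤ))) m).image (V m K),
    seq m K q s, ?_, ?_, ?_, ?_⟩
  · refine (card_union_le _ _).trans ?_
    have h1 : ((Icc (0 : ℤ) (10 * m)).image (U m K)).card ≤ 10 * m + 1 := by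
      refine card_image_le.trans ?_
      rw [Int.card_Icc]; omega
    have h2 : ((Icc (-(10 * (m : ℤ))) m).image (V m K)).card ≤ 11 * m + 1 := by
      refine card_image_le.trans ?_
      rw [Int.card_Icc]; omega
    omega
  · intro k hk
    obtain ⟨i, hi, j, hj, e⟩ := seq_mem (K := K) D hm' k (by exact_mod_cast hk)
    rw [← e]
    exact add_mem_add (mem_union_left _ (mem_image_of_mem _ hi))
      (mem_union_right _ (mem_image_of_mem _ hj))
  · intro k hk
    exact (seq_gaps D hm' le_rfl k (by exact_mod_cast hk)).1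
  · intro k hk
    exact (seq_gaps D hm' le_rfl k (by
      have : k + 1 < 2 * m ^ 2 := by omega
      exact_mod_cast this)).2

end Run7.h185.CS
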